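import Pool.Agent.Helper40.WD.Stmts

/-!
# Row NET: continuous almost best extensions
-/

set_option autoImplicit false

namespace Pool.Agent.Helper53.WD

open Filter Topology
open Pool.Agent.Helper40.WD

/-- evaluation at a point -/
noncomputable def NET_ev (D : Dav) (q : Gi) : Wd D →ₗ[ℝ] ℝ where
  toFun w := (w : LI) q
  map_add' a b := by simp
  map_smul' c a := by simp

theorem NET_ev_apply (D : Dav) (q : Gi) (w : Wd D) : NET_ev D q w = (w : LI) q := rfl

theorem NET_ev_le (D : Dav) (q : Gi) (w : Wd D) : |(w : LI) q| ≤ ‖w‖ := by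
  have h := lp.norm_apply_le_norm (p := ⊤) (by simp) (w : LI) q
  rwa [Real.norm_eq_abs] at h

theorem st_NET : ST_NET := by
  classical
  intro D n η hη
  let P := Σ k : Fin (n + 1), Fin (4 * mm k)
  let r : Wd D → (P → ℝ) := fun w q => (w : LI) ⟨q.1, q.2⟩
  let ρ : (∀ k : ℕ, Fin (4 * mm k) → ℝ) → (P → ℝ) := fun p q => p q.1 q.2
  have hρ : Continuous ρ := by
    refine continuous_pi fun q => ?_
    exact (continuous_apply q.2).comp (continuous_apply (q.1 : ℕ))
  have hs : TotallyBounded (r '' {w : Wd D | ‖w‖ ≤ 1}) := by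
    refine (isCompact_closedBall (0 : P → ℝ) 1).totallyBounded.subset ?_
    rintro _ ⟨w, hw, rfl⟩
    rw [mem_closedBall_zero_iff, pi_norm_le_iff_of_nonneg zero_le_one]
    intro q
    rw [Real.norm_eq_abs]
    exact (NET_ev_le D ⟨q.1, q.2⟩ w).trans hw
  obtain ⟨t, ht1, ht2, ht3⟩ := Metric.finite_approx_of_totallyBounded hs (η / 2) (by positivity)
  have htne : t.Nonempty := by
    have h0 : r 0 ∈ r '' {w : Wd D | ‖w‖ ≤ 1} := ⟨0, by simp, rfl⟩
    obtain ⟨y, hy, _⟩ := Set.mem_iUnion₂.1 (ht3 h0)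
    exact ⟨y, hy⟩
  have hW : ∀ y : P → ℝ, ∃ w : Wd D, ‖w‖ ≤ 1 ∧ (y ∈ t → r w = y) := by
    intro y
    by_cases hy : y ∈ t
    · obtain ⟨w, hw, h⟩ := ht1 hy
      exact ⟨w, hw, fun _ => h⟩
    · exact ⟨0, by simp, fun h => absurd h hy⟩
  choose W hW1 hW2 using hW
  let T : Finset (P → ℝ) := ht2.toFinset
  have hT : ∀ y, y ∈ T ↔ y ∈ t := fun y => ht2.mem_toFinset
  let lam : (P → ℝ) → (∀ k : ℕ, Fin (4 * mm k) → ℝ) → ℝ := fun y p =>
    max 0 (Metric.infDist (ρ p) t + η / 2 - dist (ρ p) y)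
  have hl0 : ∀ y p, 0 ≤ lam y p := fun y p => le_max_left _ _
  have hlc : ∀ y, Continuous (lam y) := by
    intro y
    refine continuous_const.max (Continuous.sub (Continuous.add ?_ continuous_const) ?_)
    · exact (Metric.continuous_infDist_pt t).comp hρ
    · exact hρ.dist continuous_const
  let L : (∀ k : ℕ, Fin (4 * mm k) → ℝ) → ℝ := fun p => ∑ y ∈ T, lam y p
  have hLc : Continuous L := continuous_finsetSum _ fun y _ => hlc y
  have hL : ∀ p, η / 2 ≤ L p := by
    intro p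
    obtain ⟨y, hy, h⟩ := ht2.isCompact.exists_infDist_eq_dist htne (ρ p)
    have h1 : η / 2 ≤ lam y p := by
      refine le_max_of_le_right ?_
      rw [h]
      linarith
    exact h1.trans (Finset.single_le_sum (f := fun y => lam y p) (fun z _ => hl0 z p)
      ((hT y).2 hy))
  have hLpos : ∀ p, 0 < L p := fun p => lt_of_lt_of_le (by positivity) (hL p)
  refine ⟨fun p => (L p)⁻¹ • ∑ y ∈ T, lam y p • W y, ?_, ?_, ?_⟩
  · refine Continuous.smul (hLc.inv₀ fun p => (hLpos p).ne') ?_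
    exact continuous_finsetSum _ fun y _ => (hlc y).smul continuous_const
  · intro p
    rw [norm_smul, norm_inv, Real.norm_of_nonneg (hLpos p).le,
      inv_mul_le_iff₀ (hLpos p), mul_one]
    refine (norm_sum_le _ _).trans (Finset.sum_le_sum fun y _ => ?_)
    rw [norm_smul, Real.norm_of_nonneg (hl0 y p)]
    exact mul_le_of_le_one_right (hl0 y p) (hW1 y)
  · intro p w δ hw hp k hk g
    have hδ : 0 ≤ δ := (abs_nonneg _).trans (hp k hk g)
    have hm : Metric.infDist (ρ p) t ≤ δ + η / 2 := by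
      have h0 : r w ∈ r '' {w : Wd D | ‖w‖ ≤ 1} := ⟨w, hw, rfl⟩
      obtain ⟨y, hy, hyw⟩ := Set.mem_iUnion₂.1 (ht3 h0)
      have h1 : dist (ρ p) (r w) ≤ δ := by
        rw [dist_pi_le_iff hδ]
        intro q
        rw [Real.dist_eq]
        exact hp q.1 (Nat.lt_succ_iff.1 q.1.2) q.2
      have h2 : dist (r w) y < η / 2 := Metric.mem_ball.1 hyw
      calc Metric.infDist (ρ p) t ≤ dist (ρ p) y := Metric.infDist_le_dist_of_mem hy
        _ ≤ dist (ρ p) (r w) + dist (r w) y := dist_triangle _ _ _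
        _ ≤ δ + η / 2 := by linarith
    let q : P := ⟨⟨k, Nat.lt_succ_iff.2 hk⟩, g⟩
    have e1 : (((L p)⁻¹ • ∑ y ∈ T, lam y p • W y : Wd D) : LI) ⟨k, g⟩ =
        (L p)⁻¹ * ∑ y ∈ T, lam y p * y q := by
      rw [← NET_ev_apply, map_smul, map_sum, smul_eq_mul]
      congr 1
      refine Finset.sum_congr rfl fun y hy => ?_
      rw [map_smul, smul_eq_mul]
      have h3 := congrFun (hW2 y ((hT y).1 hy)) q
      rw [NET_ev_apply]
      congr 1
    have e2 : p k g - (L p)⁻¹ * ∑ y ∈ T, lam y p * y q =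
        (L p)⁻¹ * ∑ y ∈ T, lam y p * (p k g - y q) := by
      simp only [mul_sub, Finset.sum_sub_distrib, ← Finset.sum_mul]
      have h4 : (L p)⁻¹ * ((∑ y ∈ T, lam y p) * p k g) = p k g := by
        show (L p)⁻¹ * (L p * p k g) = p k g
        rw [inv_mul_cancel_left₀ (hLpos p).ne']
      rw [h4]
    rw [e1, e2, abs_mul, abs_inv, abs_of_pos (hLpos p), inv_mul_le_iff₀ (hLpos p)]
    refine (Finset.abs_sum_le_sum_abs _ _).trans ?_
    have h5 : L p * (δ + η) = ∑ y ∈ T, lam y p * (δ + η) := by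
      rw [← Finset.sum_mul]
    rw [h5]
    refine Finset.sum_le_sum fun y _ => ?_
    rw [abs_mul, abs_of_nonneg (hl0 y p)]
    rcases (hl0 y p).eq_or_lt with h6 | h6
    · rw [← h6]
      simp
    · refine mul_le_mul_of_nonneg_left ?_ h6.le
      have h7 : 0 < Metric.infDist (ρ p) t + η / 2 - dist (ρ p) y := by
        by_contra hneg
        push Not at hneg
        have : lam y p = 0 := max_eq_left hneg
        rw [this] at h6
        exact lt_irrefl _ h6
      have h8 : |p k g - y q| ≤ dist (ρ p) y := by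
        have := dist_le_pi_dist (ρ p) y q
        rwa [Real.dist_eq] at this
      linarith

end Pool.Agent.Helper53.WD
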